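import Pool.Agent.helper51.VF.SpecC

set_option autoImplicit false

namespace Pool.Agent.VF

open Pool.Agent.PC Pool.Agent.QS MvPolynomial

universe u

theorem CRF (hLCF : QS.LCF_stmt.{u}) (hNRA : QS.NRA_stmt.{u}) (hKDI : QS.KDI_stmt.{u})
    (hTBF : QS.TBF_stmt.{u}) (hHOM : HOM_stmt.{u}) (hFTR : FTR_stmt.{u}) (hRPF : RPF_stmt.{u})
    (hNSP : NSP_stmt.{u}) (hSGP : SGP_stmt.{u}) (hASP : ASP_stmt.{u}) (hICQ : ICQ_stmt.{u}) :
    CRF_stmt.{u} := by
  intro k R A F K _ _ _ _ _ _ _ _ _ _ _ _ _ _ _ _ _ _ _ _ _ _ _ _ _ _ _ _ n p _ _ hn hnp hdim hFol S B hplt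
  have hplt' := hplt
  obtain ⟨hB, ω, μ, hω, hμ, hloc⟩ := hplt
  have hS : S.IsPrime := hB.1
  have hp0 : 0 < p := (Fact.out : p.Prime).pos
  obtain ⟨hint, hht, hincl, hrad⟩ := hHOM R A p hp0 hFol.1
  obtain ⟨⟨xK, hxK⟩, hfr, hm⟩ := hLCF k A K n hdim
  have hUFD : ∀ (m : Ideal A) [m.IsMaximal], UniqueFactorizationMonoid (Localization.AtPrime m) :=
    fun m _ => (hm m).2.2
  have hIA : IsIntegrallyClosed A := hNRA A hUFD
  have hfA : Algebra.FiniteType k A := inferInstance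
  have hfR : Algebra.FiniteType k R := hFTR k R A
  have hNA : IsNoetherianRing A := Algebra.FiniteType.isNoetherianRing k A
  have hNR : IsNoetherianRing R := Algebra.FiniteType.isNoetherianRing k R
  have hfd : FiniteDimensional F K := by
    refine Module.finite_of_finrank_pos ?_
    rw [hFol.2]
    exact hp0
  have halg : Algebra.IsAlgebraic F K := inferInstance
  obtain ⟨x, hx⟩ := hTBF k F K n xK hxK
  have h1 : Algebra.EssFiniteType R F := Algebra.EssFiniteType.of_isLocalization F (nonZeroDivisors R)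
  have h2 : Algebra.EssFiniteType k F := Algebra.EssFiniteType.comp k R F
  have hfrF : Module.finrank F (Ω[F⁄k]) = n := (hKDI k F n x hx).2
  have hPA : PltAt (A := A) R K p S ω μ := by
    intro m hm hSm
    have hM : (m.comap (algebraMap R A)).IsMaximal := Ideal.isMaximal_comap_of_isIntegral_of_isMaximal m
    obtain ⟨g, hg0, hCar, hDis⟩ := hloc _ hM
    obtain ⟨t, ht0, hE, hform⟩ := hRPF k R A F K n p hFol (by omega) hfr S B ω μ g hω hg0 hμ hB m
      (hUFD m) hSm hCar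
    exact ⟨g, t, hg0, ht0, hDis, hE, fun δ _ hδ => hform δ hδ⟩
  refine hICQ R S hS fun r s hs hrs => ?_
  refine hASP R _ r fun P hP hJP x' hx' => ?_
  obtain ⟨hQ, hQP⟩ := hrad P hP
  set Q : Ideal A := (P.map (algebraMap R A)).radical with hQdef
  have hSP : S ≤ P := le_sup_right.trans hJP
  have hsP : s ∈ P := hJP (Ideal.mem_sup_left (Ideal.mem_span_singleton_self s))
  by_cases hsing : Sing F K Q
  · have h := hSGP k R A F K n p hFol x hx hfr hfrF hdim hn hnp S ω μ hS hω hμ hPA Q hQ hsing r s x'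
      (by rw [hQP]; exact hSP) (by rw [hQP]; exact hsP) hs hrs (by rw [hQP]; exact hx')
    rw [hQP] at h
    exact h
  · obtain ⟨w, hw, hwr⟩ := hNSP k R A F K n p hFol x hx hn hnp S B hplt' Q hQ hsing r s
      (by rw [hQP]; exact hSP) hs hrs
    rw [hQP] at hw
    refine ⟨w, hw, ?_⟩
    have h3 : w * (x' * r) = x' * (w * r) := by ring
    rw [h3]
    exact Ideal.mul_mem_left _ _ hwr

end Pool.Agent.VF
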